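import Mathlib

/-!
# The conjectured formula for `sat(K_{n₁,n₂}, C_{2ℓ})` fails for all `ℓ ≥ 4` and all `n₁, n₂ ≥ ℓ + 2`

We exhibit, for all `ℓ ≥ 4` and `n₁, n₂ ≥ ℓ + 2`, a spanning subgraph of `K_{n₁,n₂}` with exactly
`n₁ + n₂ + ℓ² - 5ℓ + 7` edges that is `C_{2ℓ}`-saturated relative to `K_{n₁,n₂}`.
-/

namespace Pool.Agent.Results.MP_7875f2_co.FormulaFails

open SimpleGraph

/-- `H` is `F`-saturated relative to `G`: `H` is a spanning subgraph of `G`, contains no copy of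
`F`, and adding to `H` any edge of `G` missing from `H` creates a copy of `F`. -/
def IsSaturated {V W : Type*} (G : SimpleGraph V) (F : SimpleGraph W) (H : SimpleGraph V) : Prop :=
  H ≤ G ∧ F.Free H ∧ ∀ v w : V, G.Adj v w → ¬ H.Adj v w → F.IsContained (H ⊔ edge v w)

/-- The saturation number `sat(G, F)`: the least number of edges of a graph that is
`F`-saturated relative to `G`. -/
noncomputable def sat {V W : Type*} (G : SimpleGraph V) (F : SimpleGraph W) : ℕ :=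
  sInf {m : ℕ | ∃ H : SimpleGraph V, IsSaturated G F H ∧ H.edgeSet.ncard = m}

/-- Adjacency relation (on indices) of the construction, with `s = ℓ - 3`. -/
def E (s a b : ℕ) : Prop :=
  (a = 0 ∧ b ≤ s + 3) ∨ (1 ≤ a ∧ a ≤ s ∧ b ≤ s + 1) ∨
  (a = s + 1 ∧ (b = 0 ∨ b = s + 2)) ∨ (a = s + 2 ∧ (b = 0 ∨ b = s + 3)) ∨
  (a = s + 3 ∧ (b = 1 ∨ s + 4 ≤ b)) ∨ (s + 4 ≤ a ∧ b = 2)

/-- The construction. -/
def HG (s n₁ n₂ : ℕ) : SimpleGraph (Fin n₁ ⊕ Fin n₂) where
  Adj v w := (∃ a b, v = Sum.inl a ∧ w = Sum.inr b ∧ E s a.val b.val) ∨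
    (∃ a b, w = Sum.inl a ∧ v = Sum.inr b ∧ E s a.val b.val)
  symm := ⟨fun v w h => h.symm⟩
  loopless := ⟨fun v h => by
    rcases h with ⟨a, b, h1, h2, -⟩ | ⟨a, b, h1, h2, -⟩ <;> simp [h1] at h2⟩

lemma HG_adj_lr {s n₁ n₂ : ℕ} {a : Fin n₁} {b : Fin n₂} :
    (HG s n₁ n₂).Adj (Sum.inl a) (Sum.inr b) ↔ E s a.val b.val := by
  constructor
  · rintro (⟨a', b', h1, h2, h⟩ | ⟨a', b', h1, h2, h⟩)
    · cases h1; cases h2; exact h
    · cases h1
  · intro h; exact Or.inl ⟨a, b, rfl, rfl, h⟩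

lemma HG_adj_ll {s n₁ n₂ : ℕ} {a a' : Fin n₁} :
    ¬ (HG s n₁ n₂).Adj (Sum.inl a) (Sum.inl a') := by
  rintro (⟨a', b', h1, h2, h⟩ | ⟨a', b', h1, h2, h⟩)
  · cases h2
  · cases h2

lemma HG_adj_rr {s n₁ n₂ : ℕ} {b b' : Fin n₂} :
    ¬ (HG s n₁ n₂).Adj (Sum.inr b) (Sum.inr b') := by
  rintro (⟨a', b', h1, h2, h⟩ | ⟨a', b', h1, h2, h⟩)
  · cases h1
  · cases h1

/-- Building a cycle of length `2ℓ` from two sequences. -/
lemma cyc {n₁ n₂ ℓ : ℕ} (hℓ : 2 ≤ ℓ) (K : SimpleGraph (Fin n₁ ⊕ Fin n₂)) (g h : ℕ → ℕ)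
    (hg : ∀ i < ℓ, g i < n₁) (hh : ∀ i < ℓ, h i < n₂)
    (ginj : ∀ i j, i < j → j < ℓ → g i ≠ g j) (hinj : ∀ i j, i < j → j < ℓ → h i ≠ h j)
    (E1 : ∀ (a : Fin n₁) (b : Fin n₂) (i : ℕ), i < ℓ → a.val = g i → b.val = h i →
      K.Adj (Sum.inl a) (Sum.inr b))
    (E2 : ∀ (a : Fin n₁) (b : Fin n₂) (i : ℕ), i + 1 < ℓ → a.val = g (i + 1) → b.val = h i →
      K.Adj (Sum.inl a) (Sum.inr b))
    (E3 : ∀ (a : Fin n₁) (b : Fin n₂), a.val = g 0 → b.val = h (ℓ - 1) →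
      K.Adj (Sum.inl a) (Sum.inr b)) :
    (cycleGraph (2 * ℓ)).IsContained K := by
  classical
  let f : Fin (2 * ℓ) → Fin n₁ ⊕ Fin n₂ := fun i =>
    if i.val % 2 = 0 then Sum.inl ⟨g (i.val / 2), hg _ (by omega)⟩
    else Sum.inr ⟨h (i.val / 2), hh _ (by omega)⟩
  have hstep : ∀ u v : Fin (2 * ℓ), (v.val = u.val + 1 ∨ (v.val = 0 ∧ u.val = 2 * ℓ - 1)) →
      K.Adj (f u) (f v) := by
    intro u v huv
    have hu := u.isLt
    have hv := v.isLt
    by_cases hp : u.val % 2 = 0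
    · have h1 : v.val = u.val + 1 := by omega
      have hq : ¬ v.val % 2 = 0 := by omega
      have e1 : f u = Sum.inl ⟨g (u.val / 2), hg _ (by omega)⟩ := by simp [f, hp]
      have e2 : f v = Sum.inr ⟨h (v.val / 2), hh _ (by omega)⟩ := by simp only [f, if_neg hq]
      rw [e1, e2]
      refine E1 _ _ (u.val / 2) (by omega) rfl ?_
      have : v.val / 2 = u.val / 2 := by omega
      simp [this]
    · have hq : v.val % 2 = 0 := by omega
      have e1 : f u = Sum.inr ⟨h (u.val / 2), hh _ (by omega)⟩ := by simp only [f, if_neg hp]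
      have e2 : f v = Sum.inl ⟨g (v.val / 2), hg _ (by omega)⟩ := by simp [f, hq]
      rw [e1, e2]
      rcases huv with h1 | ⟨h1, h2⟩
      · refine (E2 _ _ (u.val / 2) (by omega) ?_ rfl).symm
        have : v.val / 2 = u.val / 2 + 1 := by omega
        simp [this]
      · refine (E3 _ _ ?_ ?_).symm
        · simp [h1]
        · have : u.val / 2 = ℓ - 1 := by omega
          simp [this]
  have hinj' : Function.Injective f := by
    intro u v huv
    have hu := u.isLt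
    have hv := v.isLt
    by_cases hp : u.val % 2 = 0 <;> by_cases hq : v.val % 2 = 0
    · simp only [f, if_pos hp, if_pos hq, Sum.inl.injEq, Fin.mk.injEq] at huv
      rcases lt_trichotomy (u.val / 2) (v.val / 2) with h1 | h1 | h1
      · exact absurd huv (ginj _ _ h1 (by omega))
      · exact Fin.ext (by omega)
      · exact absurd huv.symm (ginj _ _ h1 (by omega))
    · simp only [f, if_pos hp, if_neg hq] at huv
      cases huv
    · simp only [f, if_neg hp, if_pos hq] at huv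
      cases huv
    · simp only [f, if_neg hp, if_neg hq, Sum.inr.injEq, Fin.mk.injEq] at huv
      rcases lt_trichotomy (u.val / 2) (v.val / 2) with h1 | h1 | h1
      · exact absurd huv (hinj _ _ h1 (by omega))
      · exact Fin.ext (by omega)
      · exact absurd huv.symm (hinj _ _ h1 (by omega))
  have key : ∀ u v : Fin (2 * ℓ), (u - v).val = 1 →
      (u.val = v.val + 1 ∨ (u.val = 0 ∧ v.val = 2 * ℓ - 1)) := by
    intro u v huv
    have hu := u.isLt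
    have hv := v.isLt
    rw [Fin.sub_def] at huv
    simp only at huv
    by_cases hle : v.val ≤ u.val
    · have : 2 * ℓ - v.val + u.val = 2 * ℓ + (u.val - v.val) := by omega
      rw [this, Nat.add_mod_left, Nat.mod_eq_of_lt (by omega)] at huv
      left; omega
    · rw [Nat.mod_eq_of_lt (by omega)] at huv
      right; omega
  refine ⟨⟨⟨f, ?_⟩, hinj'⟩⟩
  intro u v huv
  rw [cycleGraph_adj'] at huv
  rcases huv with h1 | h1
  · exact (hstep v u (key u v h1)).symm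
  · exact hstep u v (key v u h1)

/-- Specialisation of `cyc` to the construction plus one edge. -/
lemma sat_case {s n₁ n₂ : ℕ} (a0 : Fin n₁) (b0 : Fin n₂) (g h : ℕ → ℕ)
    (hg : ∀ i < s + 3, g i < n₁) (hh : ∀ i < s + 3, h i < n₂)
    (ginj : ∀ i j, i < j → j < s + 3 → g i ≠ g j) (hinj : ∀ i j, i < j → j < s + 3 → h i ≠ h j)
    (E1 : ∀ i, i < s + 3 → i ≤ s + 2 → E s (g i) (h i))
    (E2 : ∀ i, i + 1 < s + 3 → E s (g (i + 1)) (h i))
    (g0 : g 0 = a0.val) (h0 : h (s + 2) = b0.val) :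
    (cycleGraph (2 * (s + 3))).IsContained (HG s n₁ n₂ ⊔ edge (Sum.inl a0) (Sum.inr b0)) := by
  refine cyc (by omega) _ g h hg hh ginj hinj ?_ ?_ ?_
  · intro a b i hi ha hb
    refine Or.inl (HG_adj_lr.2 ?_)
    rw [ha, hb]; exact E1 i hi (by omega)
  · intro a b i hi ha hb
    refine Or.inl (HG_adj_lr.2 ?_)
    rw [ha, hb]; exact E2 i hi
  · intro a b ha hb
    refine Or.inr ?_
    have h1 : a = a0 := Fin.ext (by rw [ha, g0])
    have h2 : b = b0 := Fin.ext (by rw [hb]; exact h0)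
    subst h1; subst h2
    rw [edge_adj]
    exact ⟨Or.inl ⟨rfl, rfl⟩, by simp⟩

lemma c01 {s n₁ n₂ : ℕ} (hs : 1 ≤ s) (h₁ : s + 5 ≤ n₁) (h₂ : s + 5 ≤ n₂)
    (a b : ℕ) (ha : a < n₁) (hb : b < n₂) (c1 : a = 0) (c2 : s + 4 ≤ b) :
    (cycleGraph (2 * (s + 3))).IsContained
      (HG s n₁ n₂ ⊔ edge (Sum.inl ⟨a, ha⟩) (Sum.inr ⟨b, hb⟩)) := by
  refine sat_case ⟨a, ha⟩ ⟨b, hb⟩
      (fun k => if k = 0 then 0 else if k = 1 then s + 1 else if k ≤ s + 1 then k - 1 else s + 3)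
      (fun k => if k = 0 then s + 2 else if k = 1 then 0 else if k ≤ s then k else
        if k = s + 1 then 1 else b)
      ?_ ?_ ?_ ?_ ?_ ?_ ?_ ?_ <;>
    (intros; (try unfold E); (try dsimp only); split_ifs <;> first | omega | (exfalso; assumption))

lemma c02 {s n₁ n₂ : ℕ} (hs : 1 ≤ s) (h₁ : s + 5 ≤ n₁) (h₂ : s + 5 ≤ n₂)
    (a b : ℕ) (ha : a < n₁) (hb : b < n₂) (c1 : 1 ≤ a) (c2 : a ≤ s) (c3 : b = s + 2) :
    (cycleGraph (2 * (s + 3))).IsContained
      (HG s n₁ n₂ ⊔ edge (Sum.inl ⟨a, ha⟩) (Sum.inr ⟨b, hb⟩)) := by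
  refine sat_case ⟨a, ha⟩ ⟨b, hb⟩
      (fun k => if k = 0 then a else if k = s then 0 else if k = s + 1 then s + 2 else
        if k = s + 2 then s + 1 else if k < a then k else k + 1)
      (fun k => if k = s then s + 3 else if k = s + 1 then 0 else if k = s + 2 then s + 2
        else k + 1)
      ?_ ?_ ?_ ?_ ?_ ?_ ?_ ?_ <;>
    (intros; (try unfold E); (try dsimp only); split_ifs <;> first | omega | (exfalso; assumption))

lemma c03 {s n₁ n₂ : ℕ} (hs : 1 ≤ s) (h₁ : s + 5 ≤ n₁) (h₂ : s + 5 ≤ n₂)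
    (a b : ℕ) (ha : a < n₁) (hb : b < n₂) (c1 : 1 ≤ a) (c2 : a ≤ s) (c3 : b = s + 3) :
    (cycleGraph (2 * (s + 3))).IsContained
      (HG s n₁ n₂ ⊔ edge (Sum.inl ⟨a, ha⟩) (Sum.inr ⟨b, hb⟩)) := by
  refine sat_case ⟨a, ha⟩ ⟨b, hb⟩
      (fun k => if k = 0 then a else if k = s then 0 else if k = s + 1 then s + 1 else
        if k = s + 2 then s + 2 else if k < a then k else k + 1)
      (fun k => if k = s then s + 2 else if k = s + 1 then 0 else if k = s + 2 then s + 3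
        else k + 1)
      ?_ ?_ ?_ ?_ ?_ ?_ ?_ ?_ <;>
    (intros; (try unfold E); (try dsimp only); split_ifs <;> first | omega | (exfalso; assumption))

lemma c04 {s n₁ n₂ : ℕ} (hs : 1 ≤ s) (h₁ : s + 5 ≤ n₁) (h₂ : s + 5 ≤ n₂)
    (a b : ℕ) (ha : a < n₁) (hb : b < n₂) (c1 : 1 ≤ a) (c2 : a ≤ s) (c3 : s + 4 ≤ b) :
    (cycleGraph (2 * (s + 3))).IsContained
      (HG s n₁ n₂ ⊔ edge (Sum.inl ⟨a, ha⟩) (Sum.inr ⟨b, hb⟩)) := by
  refine sat_case ⟨a, ha⟩ ⟨b, hb⟩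
      (fun k => if k = 0 then a else if k = 1 then s + 1 else if k = 2 then 0 else
        if k = s + 2 then s + 3 else if k - 2 < a then k - 2 else k - 1)
      (fun k => if k = 0 then 0 else if k = 1 then s + 2 else if k = s + 1 then 1 else
        if k = s + 2 then b else k)
      ?_ ?_ ?_ ?_ ?_ ?_ ?_ ?_ <;>
    (intros; (try unfold E); (try dsimp only); split_ifs <;> first | omega | (exfalso; assumption))

lemma c05 {s n₁ n₂ : ℕ} (hs : 1 ≤ s) (h₁ : s + 5 ≤ n₁) (h₂ : s + 5 ≤ n₂)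
    (a b : ℕ) (ha : a < n₁) (hb : b < n₂) (c1 : a = s + 1) (c2 : 1 ≤ b) (c3 : b ≤ s + 1) :
    (cycleGraph (2 * (s + 3))).IsContained
      (HG s n₁ n₂ ⊔ edge (Sum.inl ⟨a, ha⟩) (Sum.inr ⟨b, hb⟩)) := by
  refine sat_case ⟨a, ha⟩ ⟨b, hb⟩
      (fun k => if k = 0 then s + 1 else if k = 1 then 0 else if k = 2 then s + 2 else k - 2)
      (fun k => if k = 0 then s + 2 else if k = 1 then s + 3 else if k = 2 then 0 else
        if k = s + 2 then b else if k - 2 < b then k - 2 else k - 1)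
      ?_ ?_ ?_ ?_ ?_ ?_ ?_ ?_ <;>
    (intros; (try unfold E); (try dsimp only); split_ifs <;> first | omega | (exfalso; assumption))

lemma c06 {s n₁ n₂ : ℕ} (hs : 1 ≤ s) (h₁ : s + 5 ≤ n₁) (h₂ : s + 5 ≤ n₂)
    (a b : ℕ) (ha : a < n₁) (hb : b < n₂) (c1 : a = s + 2) (c2 : 1 ≤ b) (c3 : b ≤ s + 1) :
    (cycleGraph (2 * (s + 3))).IsContained
      (HG s n₁ n₂ ⊔ edge (Sum.inl ⟨a, ha⟩) (Sum.inr ⟨b, hb⟩)) := by
  refine sat_case ⟨a, ha⟩ ⟨b, hb⟩
      (fun k => if k = 0 then s + 2 else if k = 1 then 0 else if k = 2 then s + 1 else k - 2)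
      (fun k => if k = 0 then s + 3 else if k = 1 then s + 2 else if k = 2 then 0 else
        if k = s + 2 then b else if k - 2 < b then k - 2 else k - 1)
      ?_ ?_ ?_ ?_ ?_ ?_ ?_ ?_ <;>
    (intros; (try unfold E); (try dsimp only); split_ifs <;> first | omega | (exfalso; assumption))

lemma c07 {s n₁ n₂ : ℕ} (hs : 1 ≤ s) (h₁ : s + 5 ≤ n₁) (h₂ : s + 5 ≤ n₂)
    (a b : ℕ) (ha : a < n₁) (hb : b < n₂) (c1 : a = s + 1) (c2 : b = s + 3) :
    (cycleGraph (2 * (s + 3))).IsContained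
      (HG s n₁ n₂ ⊔ edge (Sum.inl ⟨a, ha⟩) (Sum.inr ⟨b, hb⟩)) := by
  refine sat_case ⟨a, ha⟩ ⟨b, hb⟩
      (fun k => if k = 0 then s + 1 else if k = 1 then 0 else if k = s + 2 then s + 2 else k - 1)
      (fun k => if k = 0 then s + 2 else if k = s + 1 then 0 else if k = s + 2 then s + 3 else k)
      ?_ ?_ ?_ ?_ ?_ ?_ ?_ ?_ <;>
    (intros; (try unfold E); (try dsimp only); split_ifs <;> first | omega | (exfalso; assumption))

lemma c08 {s n₁ n₂ : ℕ} (hs : 1 ≤ s) (h₁ : s + 5 ≤ n₁) (h₂ : s + 5 ≤ n₂)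
    (a b : ℕ) (ha : a < n₁) (hb : b < n₂) (c1 : a = s + 2) (c2 : b = s + 2) :
    (cycleGraph (2 * (s + 3))).IsContained
      (HG s n₁ n₂ ⊔ edge (Sum.inl ⟨a, ha⟩) (Sum.inr ⟨b, hb⟩)) := by
  refine sat_case ⟨a, ha⟩ ⟨b, hb⟩
      (fun k => if k = 0 then s + 2 else if k = 1 then 0 else if k = s + 2 then s + 1 else k - 1)
      (fun k => if k = 0 then s + 3 else if k = s + 1 then 0 else if k = s + 2 then s + 2 else k)
      ?_ ?_ ?_ ?_ ?_ ?_ ?_ ?_ <;>
    (intros; (try unfold E); (try dsimp only); split_ifs <;> first | omega | (exfalso; assumption))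

lemma c09 {s n₁ n₂ : ℕ} (hs : 1 ≤ s) (h₁ : s + 5 ≤ n₁) (h₂ : s + 5 ≤ n₂)
    (a b : ℕ) (ha : a < n₁) (hb : b < n₂) (c1 : a = s + 1) (c2 : s + 4 ≤ b) :
    (cycleGraph (2 * (s + 3))).IsContained
      (HG s n₁ n₂ ⊔ edge (Sum.inl ⟨a, ha⟩) (Sum.inr ⟨b, hb⟩)) := by
  refine sat_case ⟨a, ha⟩ ⟨b, hb⟩
      (fun k => if k = 0 then s + 1 else if k = 1 then 0 else if k = s + 2 then s + 3 else k - 1)
      (fun k => if k = 0 then s + 2 else if k = s + 1 then 1 else if k = s + 2 then b else k + 1)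
      ?_ ?_ ?_ ?_ ?_ ?_ ?_ ?_ <;>
    (intros; (try unfold E); (try dsimp only); split_ifs <;> first | omega | (exfalso; assumption))

lemma c10 {s n₁ n₂ : ℕ} (hs : 1 ≤ s) (h₁ : s + 5 ≤ n₁) (h₂ : s + 5 ≤ n₂)
    (a b : ℕ) (ha : a < n₁) (hb : b < n₂) (c1 : a = s + 2) (c2 : s + 4 ≤ b) :
    (cycleGraph (2 * (s + 3))).IsContained
      (HG s n₁ n₂ ⊔ edge (Sum.inl ⟨a, ha⟩) (Sum.inr ⟨b, hb⟩)) := by
  refine sat_case ⟨a, ha⟩ ⟨b, hb⟩
      (fun k => if k = 0 then s + 2 else if k = 1 then 0 else if k = s + 2 then s + 3 else k - 1)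
      (fun k => if k = 0 then s + 3 else if k = s + 1 then 1 else if k = s + 2 then b else k + 1)
      ?_ ?_ ?_ ?_ ?_ ?_ ?_ ?_ <;>
    (intros; (try unfold E); (try dsimp only); split_ifs <;> first | omega | (exfalso; assumption))

lemma c11 {s n₁ n₂ : ℕ} (hs : 1 ≤ s) (h₁ : s + 5 ≤ n₁) (h₂ : s + 5 ≤ n₂)
    (a b : ℕ) (ha : a < n₁) (hb : b < n₂) (c1 : a = s + 3) (c2 : b = 0) :
    (cycleGraph (2 * (s + 3))).IsContained
      (HG s n₁ n₂ ⊔ edge (Sum.inl ⟨a, ha⟩) (Sum.inr ⟨b, hb⟩)) := by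
  refine sat_case ⟨a, ha⟩ ⟨b, hb⟩
      (fun k => if k = 0 then s + 3 else if k = s + 1 then 0 else if k = s + 2 then s + 1 else k)
      (fun k => if k = s + 1 then s + 2 else if k = s + 2 then 0 else k + 1)
      ?_ ?_ ?_ ?_ ?_ ?_ ?_ ?_ <;>
    (intros; (try unfold E); (try dsimp only); split_ifs <;> first | omega | (exfalso; assumption))

lemma c12 {s n₁ n₂ : ℕ} (hs : 1 ≤ s) (h₁ : s + 5 ≤ n₁) (h₂ : s + 5 ≤ n₂)
    (a b : ℕ) (ha : a < n₁) (hb : b < n₂) (c1 : a = s + 3) (c2 : 2 ≤ b) (c3 : b ≤ s + 1) :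
    (cycleGraph (2 * (s + 3))).IsContained
      (HG s n₁ n₂ ⊔ edge (Sum.inl ⟨a, ha⟩) (Sum.inr ⟨b, hb⟩)) := by
  refine sat_case ⟨a, ha⟩ ⟨b, hb⟩
      (fun k => if k = 0 then s + 3 else if k = s then 0 else if k = s + 1 then s + 1 else
        if k = s + 2 then s else k)
      (fun k => if k = s then s + 2 else if k = s + 1 then 0 else if k = s + 2 then b else
        if k + 1 < b then k + 1 else k + 2)
      ?_ ?_ ?_ ?_ ?_ ?_ ?_ ?_ <;>
    (intros; (try unfold E); (try dsimp only); split_ifs <;> first | omega | (exfalso; assumption))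

lemma c13 {s n₁ n₂ : ℕ} (hs : 1 ≤ s) (h₁ : s + 5 ≤ n₁) (h₂ : s + 5 ≤ n₂)
    (a b : ℕ) (ha : a < n₁) (hb : b < n₂) (c1 : a = s + 3) (c2 : b = s + 2) :
    (cycleGraph (2 * (s + 3))).IsContained
      (HG s n₁ n₂ ⊔ edge (Sum.inl ⟨a, ha⟩) (Sum.inr ⟨b, hb⟩)) := by
  refine sat_case ⟨a, ha⟩ ⟨b, hb⟩
      (fun k => if k = 0 then s + 3 else if k = s + 1 then s + 2 else if k = s + 2 then 0 else k)
      (fun k => if k = s then 0 else if k = s + 1 then s + 3 else if k = s + 2 then s + 2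
        else k + 1)
      ?_ ?_ ?_ ?_ ?_ ?_ ?_ ?_ <;>
    (intros; (try unfold E); (try dsimp only); split_ifs <;> first | omega | (exfalso; assumption))

lemma c14 {s n₁ n₂ : ℕ} (hs : 1 ≤ s) (h₁ : s + 5 ≤ n₁) (h₂ : s + 5 ≤ n₂)
    (a b : ℕ) (ha : a < n₁) (hb : b < n₂) (c1 : a = s + 3) (c2 : b = s + 3) :
    (cycleGraph (2 * (s + 3))).IsContained
      (HG s n₁ n₂ ⊔ edge (Sum.inl ⟨a, ha⟩) (Sum.inr ⟨b, hb⟩)) := by
  refine sat_case ⟨a, ha⟩ ⟨b, hb⟩
      (fun k => if k = 0 then s + 3 else if k = s + 1 then s + 1 else if k = s + 2 then 0 else k)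
      (fun k => if k = s then 0 else if k = s + 1 then s + 2 else if k = s + 2 then s + 3
        else k + 1)
      ?_ ?_ ?_ ?_ ?_ ?_ ?_ ?_ <;>
    (intros; (try unfold E); (try dsimp only); split_ifs <;> first | omega | (exfalso; assumption))

lemma c15 {s n₁ n₂ : ℕ} (hs : 1 ≤ s) (h₁ : s + 5 ≤ n₁) (h₂ : s + 5 ≤ n₂)
    (a b : ℕ) (ha : a < n₁) (hb : b < n₂) (c1 : s + 4 ≤ a) (c2 : b = 0) :
    (cycleGraph (2 * (s + 3))).IsContained
      (HG s n₁ n₂ ⊔ edge (Sum.inl ⟨a, ha⟩) (Sum.inr ⟨b, hb⟩)) := by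
  refine sat_case ⟨a, ha⟩ ⟨b, hb⟩
      (fun k => if k = 0 then a else if k = s + 1 then 0 else if k = s + 2 then s + 1 else k)
      (fun k => if k = 0 then 2 else if k = 1 then 1 else if k = s + 1 then s + 2 else
        if k = s + 2 then 0 else k + 1)
      ?_ ?_ ?_ ?_ ?_ ?_ ?_ ?_ <;>
    (intros; (try unfold E); (try dsimp only); split_ifs <;> first | omega | (exfalso; assumption))

lemma c16 {s n₁ n₂ : ℕ} (hs : 1 ≤ s) (h₁ : s + 5 ≤ n₁) (h₂ : s + 5 ≤ n₂)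
    (a b : ℕ) (ha : a < n₁) (hb : b < n₂) (c1 : s + 4 ≤ a) (c2 : b = 1) :
    (cycleGraph (2 * (s + 3))).IsContained
      (HG s n₁ n₂ ⊔ edge (Sum.inl ⟨a, ha⟩) (Sum.inr ⟨b, hb⟩)) := by
  refine sat_case ⟨a, ha⟩ ⟨b, hb⟩
      (fun k => if k = 0 then a else if k = s then 0 else if k = s + 1 then s + 1 else
        if k = s + 2 then s else k)
      (fun k => if k = s then s + 2 else if k = s + 1 then 0 else if k = s + 2 then 1 else k + 2)
      ?_ ?_ ?_ ?_ ?_ ?_ ?_ ?_ <;>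
    (intros; (try unfold E); (try dsimp only); split_ifs <;> first | omega | (exfalso; assumption))

lemma c17 {s n₁ n₂ : ℕ} (hs : 1 ≤ s) (h₁ : s + 5 ≤ n₁) (h₂ : s + 5 ≤ n₂)
    (a b : ℕ) (ha : a < n₁) (hb : b < n₂) (c1 : s + 4 ≤ a) (c2 : 3 ≤ b) (c3 : b ≤ s + 1) :
    (cycleGraph (2 * (s + 3))).IsContained
      (HG s n₁ n₂ ⊔ edge (Sum.inl ⟨a, ha⟩) (Sum.inr ⟨b, hb⟩)) := by
  refine sat_case ⟨a, ha⟩ ⟨b, hb⟩
      (fun k => if k = 0 then a else if k = s then 0 else if k = s + 1 then s + 1 else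
        if k = s + 2 then s else k)
      (fun k => if k = 0 then 2 else if k = s then s + 2 else if k = s + 1 then 0 else
        if k = s + 2 then b else if k = 1 then 1 else if k + 1 < b then k + 1 else k + 2)
      ?_ ?_ ?_ ?_ ?_ ?_ ?_ ?_ <;>
    (intros; (try unfold E); (try dsimp only); split_ifs <;> first | omega | (exfalso; assumption))

lemma c18 {s n₁ n₂ : ℕ} (hs : 1 ≤ s) (h₁ : s + 5 ≤ n₁) (h₂ : s + 5 ≤ n₂)
    (a b : ℕ) (ha : a < n₁) (hb : b < n₂) (c1 : s + 4 ≤ a) (c2 : b = s + 2) :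
    (cycleGraph (2 * (s + 3))).IsContained
      (HG s n₁ n₂ ⊔ edge (Sum.inl ⟨a, ha⟩) (Sum.inr ⟨b, hb⟩)) := by
  refine sat_case ⟨a, ha⟩ ⟨b, hb⟩
      (fun k => if k = 0 then a else if k = s + 1 then s + 2 else if k = s + 2 then 0 else k)
      (fun k => if k = s then 0 else if k = s + 1 then s + 3 else if k = s + 2 then s + 2 else
        if k = 0 then 2 else if k = 1 then 1 else k + 1)
      ?_ ?_ ?_ ?_ ?_ ?_ ?_ ?_ <;>
    (intros; (try unfold E); (try dsimp only); split_ifs <;> first | omega | (exfalso; assumption))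

lemma c19 {s n₁ n₂ : ℕ} (hs : 1 ≤ s) (h₁ : s + 5 ≤ n₁) (h₂ : s + 5 ≤ n₂)
    (a b : ℕ) (ha : a < n₁) (hb : b < n₂) (c1 : s + 4 ≤ a) (c2 : b = s + 3) :
    (cycleGraph (2 * (s + 3))).IsContained
      (HG s n₁ n₂ ⊔ edge (Sum.inl ⟨a, ha⟩) (Sum.inr ⟨b, hb⟩)) := by
  refine sat_case ⟨a, ha⟩ ⟨b, hb⟩
      (fun k => if k = 0 then a else if k = s + 1 then s + 1 else if k = s + 2 then 0 else k)
      (fun k => if k = s then 0 else if k = s + 1 then s + 2 else if k = s + 2 then s + 3 else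
        if k = 0 then 2 else if k = 1 then 1 else k + 1)
      ?_ ?_ ?_ ?_ ?_ ?_ ?_ ?_ <;>
    (intros; (try unfold E); (try dsimp only); split_ifs <;> first | omega | (exfalso; assumption))

lemma c20 {s n₁ n₂ : ℕ} (hs : 1 ≤ s) (h₁ : s + 5 ≤ n₁) (h₂ : s + 5 ≤ n₂)
    (a b : ℕ) (ha : a < n₁) (hb : b < n₂) (c1 : s + 4 ≤ a) (c2 : s + 4 ≤ b) :
    (cycleGraph (2 * (s + 3))).IsContained
      (HG s n₁ n₂ ⊔ edge (Sum.inl ⟨a, ha⟩) (Sum.inr ⟨b, hb⟩)) := by
  refine sat_case ⟨a, ha⟩ ⟨b, hb⟩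
      (fun k => if k = 0 then a else if k = 1 then 0 else if k = s + 2 then s + 3 else k - 1)
      (fun k => if k = 0 then 2 else if k = 1 then 0 else if k = s + 1 then 1 else
        if k = s + 2 then b else k + 1)
      ?_ ?_ ?_ ?_ ?_ ?_ ?_ ?_ <;>
    (intros; (try unfold E); (try dsimp only); split_ifs <;> first | omega | (exfalso; assumption))

/-- Adding any missing edge creates a copy of `C_{2ℓ}`. -/
lemma sat_add {s n₁ n₂ : ℕ} (hs : 1 ≤ s) (h₁ : s + 5 ≤ n₁) (h₂ : s + 5 ≤ n₂)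
    (a0 : Fin n₁) (b0 : Fin n₂) (hE : ¬ E s a0.val b0.val) :
    (cycleGraph (2 * (s + 3))).IsContained (HG s n₁ n₂ ⊔ edge (Sum.inl a0) (Sum.inr b0)) := by
  obtain ⟨a, ha⟩ := a0
  obtain ⟨b, hb⟩ := b0
  simp only at hE
  have ha' : a = 0 ∨ (1 ≤ a ∧ a ≤ s) ∨ a = s + 1 ∨ a = s + 2 ∨ a = s + 3 ∨ s + 4 ≤ a := by omega
  rcases ha' with c1 | ⟨c1, c1'⟩ | c1 | c1 | c1 | c1
  · by_cases hb4 : s + 4 ≤ b
    · exact c01 hs h₁ h₂ a b ha hb c1 hb4
    · exact absurd (Or.inl ⟨c1, by omega⟩) hE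
  · by_cases d1 : b ≤ s + 1
    · exact absurd (Or.inr (Or.inl ⟨c1, c1', d1⟩)) hE
    by_cases d2 : b = s + 2
    · exact c02 hs h₁ h₂ a b ha hb c1 c1' d2
    by_cases d3 : b = s + 3
    · exact c03 hs h₁ h₂ a b ha hb c1 c1' d3
    exact c04 hs h₁ h₂ a b ha hb c1 c1' (by omega)
  · by_cases d0 : b = 0
    · exact absurd (Or.inr (Or.inr (Or.inl ⟨c1, Or.inl d0⟩))) hE
    by_cases d1 : b ≤ s + 1
    · exact c05 hs h₁ h₂ a b ha hb c1 (by omega) d1
    by_cases d2 : b = s + 2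
    · exact absurd (Or.inr (Or.inr (Or.inl ⟨c1, Or.inr d2⟩))) hE
    by_cases d3 : b = s + 3
    · exact c07 hs h₁ h₂ a b ha hb c1 d3
    exact c09 hs h₁ h₂ a b ha hb c1 (by omega)
  · by_cases d0 : b = 0
    · exact absurd (Or.inr (Or.inr (Or.inr (Or.inl ⟨c1, Or.inl d0⟩)))) hE
    by_cases d1 : b ≤ s + 1
    · exact c06 hs h₁ h₂ a b ha hb c1 (by omega) d1
    by_cases d2 : b = s + 2
    · exact c08 hs h₁ h₂ a b ha hb c1 d2
    by_cases d3 : b = s + 3
    · exact absurd (Or.inr (Or.inr (Or.inr (Or.inl ⟨c1, Or.inr d3⟩)))) hE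
    exact c10 hs h₁ h₂ a b ha hb c1 (by omega)
  · by_cases d0 : b = 0
    · exact c11 hs h₁ h₂ a b ha hb c1 d0
    by_cases d0' : b = 1
    · exact absurd (Or.inr (Or.inr (Or.inr (Or.inr (Or.inl ⟨c1, Or.inl d0'⟩))))) hE
    by_cases d1 : b ≤ s + 1
    · exact c12 hs h₁ h₂ a b ha hb c1 (by omega) d1
    by_cases d2 : b = s + 2
    · exact c13 hs h₁ h₂ a b ha hb c1 d2
    by_cases d3 : b = s + 3
    · exact c14 hs h₁ h₂ a b ha hb c1 d3
    exact absurd (Or.inr (Or.inr (Or.inr (Or.inr (Or.inl ⟨c1, Or.inr (by omega)⟩))))) hE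
  · by_cases d0 : b = 0
    · exact c15 hs h₁ h₂ a b ha hb c1 d0
    by_cases d0' : b = 1
    · exact c16 hs h₁ h₂ a b ha hb c1 d0'
    by_cases d0'' : b = 2
    · exact absurd (Or.inr (Or.inr (Or.inr (Or.inr (Or.inr ⟨c1, d0''⟩))))) hE
    by_cases d1 : b ≤ s + 1
    · exact c17 hs h₁ h₂ a b ha hb c1 (by omega) d1
    by_cases d2 : b = s + 2
    · exact c18 hs h₁ h₂ a b ha hb c1 d2
    by_cases d3 : b = s + 3
    · exact c19 hs h₁ h₂ a b ha hb c1 d3
    exact c20 hs h₁ h₂ a b ha hb c1 (by omega)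

/-- the construction contains no `C_{2ℓ}`, cyclic-sequence form -/
lemma no_cycle_aux {s n₁ n₂ : ℕ} (hs : 1 ≤ s) (F : ZMod (2 * (s + 3)) → Fin n₁ ⊕ Fin n₂)
    (hinj : Function.Injective F) (hadj : ∀ i, (HG s n₁ n₂).Adj (F i) (F (i + 1)))
    (h0 : ∃ a, F 0 = Sum.inl a) : False := by
  have : NeZero (2 * (s + 3)) := ⟨by omega⟩
  have two_ne : (2 : ZMod (2 * (s + 3))) ≠ 0 := by
    intro h
    have h' : ((2 : ℕ) : ZMod (2 * (s + 3))) = 0 := by exact_mod_cast h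
    rw [ZMod.natCast_eq_zero_iff] at h'
    have := Nat.le_of_dvd (by norm_num) h'
    omega
  have six_ne : (6 : ZMod (2 * (s + 3))) ≠ 0 := by
    intro h
    have h' : ((6 : ℕ) : ZMod (2 * (s + 3))) = 0 := by exact_mod_cast h
    rw [ZMod.natCast_eq_zero_iff] at h'
    have := Nat.le_of_dvd (by norm_num) h'
    omega
  have hne : ∀ i, F i ≠ F (i + 2) := by
    intro i h
    have := hinj h
    apply two_ne
    have h2 : i + 0 = i + 2 := by simpa using this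
    exact (add_left_cancel h2).symm
  have hadj2 : ∀ i, (HG s n₁ n₂).Adj (F (i + 1)) (F (i + 2)) := by
    intro i
    have := hadj (i + 1)
    rwa [add_assoc, one_add_one_eq_two] at this
  -- alternate description of neighbours
  have nbA : ∀ (i) (a : Fin n₁), F (i + 1) = Sum.inl a →
      ∃ b c : Fin n₂, F i = Sum.inr b ∧ F (i + 2) = Sum.inr c ∧ b ≠ c ∧
        E s a.val b.val ∧ E s a.val c.val := by
    intro i a ha
    have h1 := hadj i
    have h2 := hadj2 i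
    rw [ha] at h1 h2
    rcases hb : F i with a' | b
    · rw [hb] at h1; exact absurd h1 HG_adj_ll
    rcases hc : F (i + 2) with a' | c
    · rw [hc] at h2; exact absurd h2 HG_adj_ll
    rw [hb] at h1; rw [hc] at h2
    refine ⟨b, c, rfl, rfl, ?_, HG_adj_lr.1 h1.symm, HG_adj_lr.1 h2⟩
    intro hbc
    exact hne i (by rw [hb, hc, hbc])
  have nbB : ∀ (i) (b : Fin n₂), F (i + 1) = Sum.inr b →
      ∃ a c : Fin n₁, F i = Sum.inl a ∧ F (i + 2) = Sum.inl c ∧ a ≠ c ∧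
        E s a.val b.val ∧ E s c.val b.val := by
    intro i b hb
    have h1 := hadj i
    have h2 := hadj2 i
    rw [hb] at h1 h2
    rcases ha : F i with a | b'
    · rcases hc : F (i + 2) with c | b'
      · rw [ha] at h1; rw [hc] at h2
        refine ⟨a, c, rfl, rfl, ?_, HG_adj_lr.1 h1, HG_adj_lr.1 h2.symm⟩
        intro hbc
        exact hne i (by rw [ha, hc, hbc])
      · rw [hc] at h2; exact absurd h2 HG_adj_rr
    · rw [ha] at h1; exact absurd h1 HG_adj_rr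
  -- leaves on the left side are not used
  have noz : ∀ i (a : Fin n₁), F i = Sum.inl a → a.val ≤ s + 3 := by
    intro i a ha
    by_contra hcon
    have hi : i = (i - 1) + 1 := by ring
    rw [hi] at ha
    obtain ⟨b, c, -, -, hbc, e1, e2⟩ := nbA _ a ha
    have : b.val = 2 := by unfold E at e1; omega
    have : c.val = 2 := by unfold E at e2; omega
    exact hbc (Fin.ext (by omega))
  have now : ∀ i (b : Fin n₂), F i = Sum.inr b → b.val ≤ s + 3 := by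
    intro i b hb
    by_contra hcon
    have hi : i = (i - 1) + 1 := by ring
    rw [hi] at hb
    obtain ⟨a, c, -, -, hbc, e1, e2⟩ := nbB _ b hb
    have : a.val = s + 3 := by unfold E at e1; omega
    have : c.val = s + 3 := by unfold E at e2; omega
    exact hbc (Fin.ext (by omega))
  have nou : ∀ i (a : Fin n₁), F i = Sum.inl a → a.val < s + 3 := by
    intro i a ha
    have h3 := noz i a ha
    by_contra hcon
    have hi : i = (i - 1) + 1 := by ring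
    rw [hi] at ha
    obtain ⟨b, c, hb, hc, hbc, e1, e2⟩ := nbA _ a ha
    have h1 := now _ b hb
    have h2 := now _ c hc
    have : b.val = 1 := by unfold E at e1; omega
    have : c.val = 1 := by unfold E at e2; omega
    exact hbc (Fin.ext (by omega))
  -- even positions are on the left side
  have heven : ∀ k : ℕ, ∃ a, F ((2 * k : ℕ) : ZMod (2 * (s + 3))) = Sum.inl a := by
    intro k
    induction k with
    | zero => simpa using h0
    | succ k ih =>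
      obtain ⟨a, ha⟩ := ih
      have h1 := hadj ((2 * k : ℕ) : ZMod (2 * (s + 3)))
      have h2 := hadj2 ((2 * k : ℕ) : ZMod (2 * (s + 3)))
      have e : (((2 * (k + 1) : ℕ)) : ZMod (2 * (s + 3))) = ((2 * k : ℕ) : ZMod (2 * (s + 3))) + 2 := by
        push_cast; ring
      rw [e]
      rw [ha] at h1
      rcases hb : F (((2 * k : ℕ) : ZMod (2 * (s + 3))) + 1) with a' | b
      · rw [hb] at h1; exact absurd h1 HG_adj_ll
      rw [hb] at h2
      rcases hc : F (((2 * k : ℕ) : ZMod (2 * (s + 3))) + 2) with a' | b'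
      · exact ⟨a', rfl⟩
      · rw [hc] at h2; exact absurd h2 HG_adj_rr
  choose A hA using heven
  -- the left vertices used are all of `0..s+2`
  have hAinj : ∀ k < s + 3, ∀ k' < s + 3, A k = A k' → k = k' := by
    intro k hk k' hk' h
    have h1 : F ((2 * k : ℕ) : ZMod (2 * (s + 3))) = F ((2 * k' : ℕ) : ZMod (2 * (s + 3))) := by
      rw [hA, hA, h]
    have h2 := hinj h1
    rw [ZMod.natCast_eq_natCast_iff] at h2
    have h3 : 2 * k = 2 * k' := Nat.ModEq.eq_of_lt_of_lt h2 (by omega) (by omega)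
    omega
  have hAsurj : ∀ v < s + 3, ∃ k, (A k).val = v := by
    intro v hv
    have hmaps : ∀ k ∈ Finset.range (s + 3), (A k).val ∈ Finset.range (s + 3) := by
      intro k _
      exact Finset.mem_range.2 (nou _ _ (hA k))
    have hinjOn : Set.InjOn (fun k => (A k).val) (Finset.range (s + 3)) := by
      intro k hk k' hk' h
      exact hAinj k (by simpa using hk) k' (by simpa using hk') (Fin.ext h)
    have hsurj := Finset.surj_on_of_inj_on_of_card_le (s := Finset.range (s + 3))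
      (t := Finset.range (s + 3)) (fun k _ => (A k).val) (fun k hk => hmaps k hk)
      (fun a₁ a₂ ha₁ ha₂ h => hinjOn ha₁ ha₂ h) le_rfl v (Finset.mem_range.2 hv)
    obtain ⟨k, _, hk⟩ := hsurj
    exact ⟨k, hk.symm⟩
  obtain ⟨k2, hk2⟩ := hAsurj (s + 1) (by omega)
  obtain ⟨k3, hk3⟩ := hAsurj (s + 2) (by omega)
  -- positions of a2, a3
  obtain ⟨i, hi⟩ : ∃ i, i + 1 = ((2 * k2 : ℕ) : ZMod (2 * (s + 3))) := ⟨_, sub_add_cancel _ 1⟩
  obtain ⟨j, hj⟩ : ∃ j, j + 1 = ((2 * k3 : ℕ) : ZMod (2 * (s + 3))) := ⟨_, sub_add_cancel _ 1⟩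
  have hFi : F (i + 1) = Sum.inl (A k2) := by rw [hi, hA]
  have hFj : F (j + 1) = Sum.inl (A k3) := by rw [hj, hA]
  have hij : i ≠ j := by
    intro h
    rw [h, hFj] at hFi
    have := Sum.inl.inj hFi
    rw [← this] at hk2
    omega
  obtain ⟨b, c, hb, hc, hbc, e1, e2⟩ := nbA i _ hFi
  obtain ⟨b', c', hb', hc', hbc', e1', e2'⟩ := nbA j _ hFj
  rw [hk2] at e1 e2
  rw [hk3] at e1' e2'
  have f1 : b.val = 0 ∨ b.val = s + 2 := by unfold E at e1; omega
  have f2 : c.val = 0 ∨ c.val = s + 2 := by unfold E at e2; omega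
  have f1' : b'.val = 0 ∨ b'.val = s + 3 := by unfold E at e1'; omega
  have f2' : c'.val = 0 ∨ c'.val = s + 3 := by unfold E at e2'; omega
  have g1 : b.val ≠ c.val := fun h => hbc (Fin.ext h)
  have g1' : b'.val ≠ c'.val := fun h => hbc' (Fin.ext h)
  -- b2's other neighbour and b3's other neighbour
  have nb2 : ∀ t (x : Fin n₂), F (t + 1) = Sum.inr x → (x.val = s + 2 ∨ x.val = s + 3) →
      (∃ y z : Fin n₁, F t = Sum.inl y ∧ F (t + 2) = Sum.inl z ∧
        ((y.val = 0 ∧ (z.val = s + 1 ∨ z.val = s + 2)) ∨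
         (z.val = 0 ∧ (y.val = s + 1 ∨ y.val = s + 2)))) := by
    intro t x hx hx'
    obtain ⟨y, z, hy, hz, hyz, e3, e4⟩ := nbB t x hx
    refine ⟨y, z, hy, hz, ?_⟩
    have k1 := nou _ _ hy
    have k2 := nou _ _ hz
    have k3 : y.val ≠ z.val := fun h => hyz (Fin.ext h)
    unfold E at e3 e4
    omega
  have hq : ∀ (t t' : ZMod (2 * (s + 3))) (x x' : Fin n₂), F t = Sum.inr x → F t' = Sum.inr x' →
      x.val = 0 → x'.val = 0 → t = t' := by
    intro t t' x x' h1 h2 h3 h4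
    apply hinj
    rw [h1, h2, Fin.ext (h3.trans h4.symm)]
  have hp : ∀ (t t' : ZMod (2 * (s + 3))) (x x' : Fin n₁), F t = Sum.inl x → F t' = Sum.inl x' →
      x.val = 0 → x'.val = 0 → t = t' := by
    intro t t' x x' h1 h2 h3 h4
    apply hinj
    rw [h1, h2, Fin.ext (h3.trans h4.symm)]
  rcases f1 with f1 | f1
  · -- F i = q, F (i+2) = b2
    have fc : c.val = s + 2 := by omega
    rcases f1' with f1' | f1'
    · exact hij (hq i j b b' hb hb' f1 f1')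
    · have fc' : c'.val = 0 := by omega
      have hji : i = j + 2 := hq i (j + 2) b c' hb hc' f1 fc'
      obtain ⟨y, z, hy, hz, hyz⟩ := nb2 (i + 1) c (by rw [add_assoc, one_add_one_eq_two]; exact hc)
        (Or.inl fc)
      rw [hFi] at hy
      have hy' : (A k2) = y := Sum.inl.inj hy
      rw [← hy', hk2] at hyz
      have hz0 : z.val = 0 := by omega
      obtain ⟨y', z', hy', hz', hyz'⟩ := nb2 (j - 1) b' (by rw [sub_add_cancel]; exact hb')
        (Or.inr f1')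
      have ej : j - 1 + 2 = j + 1 := by ring
      rw [ej, hFj] at hz'
      have hz'' : (A k3) = z' := Sum.inl.inj hz'
      rw [← hz'', hk3] at hyz'
      have hy0 : y'.val = 0 := by omega
      have := hp (i + 1 + 2) (j - 1) z y' hz hy' hz0 hy0
      rw [hji] at this
      apply six_ne
      have h6 : j + 2 + 1 + 2 - (j - 1) = 0 := by rw [this]; ring
      have h7 : j + 2 + 1 + 2 - (j - 1) = 6 := by ring
      rw [← h7, h6]
  · -- F i = b2, F (i+2) = q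
    have fc : c.val = 0 := by omega
    rcases f1' with f1' | f1'
    · have fc' : c'.val = s + 3 := by omega
      have hji : i + 2 = j := hq (i + 2) j c b' hc hb' fc f1'
      obtain ⟨y, z, hy, hz, hyz⟩ := nb2 (j + 1) c' (by rw [add_assoc, one_add_one_eq_two]; exact hc')
        (Or.inr fc')
      rw [hFj] at hy
      have hy' : (A k3) = y := Sum.inl.inj hy
      rw [← hy', hk3] at hyz
      have hz0 : z.val = 0 := by omega
      obtain ⟨y', z', hy', hz', hyz'⟩ := nb2 (i - 1) b (by rw [sub_add_cancel]; exact hb)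
        (Or.inl f1)
      have ej : i - 1 + 2 = i + 1 := by ring
      rw [ej, hFi] at hz'
      have hz'' : (A k2) = z' := Sum.inl.inj hz'
      rw [← hz'', hk2] at hyz'
      have hy0 : y'.val = 0 := by omega
      have := hp (j + 1 + 2) (i - 1) z y' hz hy' hz0 hy0
      rw [← hji] at this
      apply six_ne
      have h6 : i + 2 + 1 + 2 - (i - 1) = 0 := by rw [this]; ring
      have h7 : i + 2 + 1 + 2 - (i - 1) = 6 := by ring
      rw [← h7, h6]
    · have fc' : c'.val = 0 := by omega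
      exact hij (add_right_cancel (hq (i + 2) (j + 2) c c' hc hc' fc fc'))

lemma zmod_adj (m : ℕ) (i : ZMod (m + 2)) :
    (cycleGraph (m + 2)).Adj i (i + 1 : ZMod (m + 2)) := by
  refine Or.inr ?_
  have h : (i + 1 : ZMod (m + 2)) - i = 1 := by ring
  exact h

/-- The construction is `C_{2ℓ}`-free. -/
lemma HG_free {s n₁ n₂ : ℕ} (hs : 1 ≤ s) : (cycleGraph (2 * (s + 3))).Free (HG s n₁ n₂) := by
  rintro ⟨⟨f, hf⟩⟩
  have e : 2 * (s + 3) = (2 * s + 4) + 2 := by ring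
  -- transport to `ZMod`
  let F : ZMod (2 * (s + 3)) → Fin n₁ ⊕ Fin n₂ := fun i => f i
  have hinj : Function.Injective F := hf
  have hadj : ∀ i, (HG s n₁ n₂).Adj (F i) (F (i + 1)) := by
    intro i
    exact f.map_rel (zmod_adj (2 * s + 4) i)
  rcases h0 : F 0 with a | b
  · exact no_cycle_aux hs F hinj hadj ⟨a, h0⟩
  · -- shift by one
    have h1 := hadj 0
    rw [h0] at h1
    rcases h1' : F (0 + 1) with a | b'
    · refine no_cycle_aux hs (fun i => F (i + 1)) (fun x y h => by simpa using hinj h)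
        (fun i => hadj (i + 1)) ⟨a, h1'⟩
    · rw [h1'] at h1; exact absurd h1 HG_adj_rr

/-- The number of edges of the construction. -/
lemma HG_ncard {s n₁ n₂ : ℕ} (h₁ : s + 5 ≤ n₁) (h₂ : s + 5 ≤ n₂) :
    (HG s n₁ n₂).edgeSet.ncard = n₁ + n₂ + s ^ 2 + s + 1 := by
  classical
  let T : Set (Fin n₁ × Fin n₂) := {p | E s p.1.val p.2.val}
  have e1 : (HG s n₁ n₂).edgeSet =
      (fun p : Fin n₁ × Fin n₂ => s(Sum.inl p.1, Sum.inr p.2)) '' T := by
    ext e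
    induction e using Sym2.ind with
    | _ v w =>
      rw [mem_edgeSet]
      constructor
      · rintro (⟨a, b, rfl, rfl, h⟩ | ⟨a, b, rfl, rfl, h⟩)
        · exact ⟨(a, b), h, rfl⟩
        · exact ⟨(a, b), h, Sym2.eq_swap⟩
      · rintro ⟨⟨a, b⟩, h, h'⟩
        rw [Sym2.eq_iff] at h'
        rcases h' with ⟨rfl, rfl⟩ | ⟨rfl, rfl⟩
        · exact HG_adj_lr.2 h
        · exact (HG_adj_lr.2 h).symm
  have inj1 : Function.Injective (fun p : Fin n₁ × Fin n₂ =>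
      (s(Sum.inl p.1, Sum.inr p.2) : Sym2 (Fin n₁ ⊕ Fin n₂))) := by
    rintro ⟨a, b⟩ ⟨a', b'⟩ h
    simp only [Sym2.eq_iff] at h
    rcases h with ⟨h1, h2⟩ | ⟨h1, h2⟩
    · rw [Sum.inl.inj h1, Sum.inr.inj h2]
    · cases h1
  rw [e1, Set.ncard_image_of_injective _ inj1]
  let S : Finset (ℕ × ℕ) := ({0} ×ˢ Finset.range (s + 4)) ∪ ((Finset.Icc 1 s ×ˢ Finset.range (s + 2)) ∪
    (({s + 1} ×ˢ {0, s + 2}) ∪ (({s + 2} ×ˢ {0, s + 3}) ∪
      (({s + 3} ×ˢ (insert 1 (Finset.Ico (s + 4) n₂))) ∪ (Finset.Ico (s + 4) n₁ ×ˢ {2})))))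
  have e2 : (Prod.map Fin.val Fin.val : Fin n₁ × Fin n₂ → ℕ × ℕ) '' T = ↑S := by
    ext ⟨x, y⟩
    simp only [Set.mem_image, Prod.exists, Prod.map_apply, Prod.mk.injEq, T, Set.mem_ofPred_eq, S,
      Finset.coe_union, Set.mem_union, Finset.mem_coe, Finset.mem_product, Finset.mem_singleton,
      Finset.mem_range, Finset.mem_Icc, Finset.mem_Ico, Finset.mem_insert]
    constructor
    · rintro ⟨a, b, h, rfl, rfl⟩
      have := a.isLt
      have := b.isLt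
      unfold E at h
      omega
    · intro h
      have hx : x < n₁ := by omega
      have hy : y < n₂ := by omega
      refine ⟨⟨x, hx⟩, ⟨y, hy⟩, ?_, rfl, rfl⟩
      show E s x y
      unfold E
      omega
  have inj2 : Function.Injective (Prod.map Fin.val Fin.val : Fin n₁ × Fin n₂ → ℕ × ℕ) :=
    Function.Injective.prodMap Fin.val_injective Fin.val_injective
  rw [← Set.ncard_image_of_injective T inj2, e2, Set.ncard_coe_finset]
  have d1 : Disjoint (({0} : Finset ℕ) ×ˢ Finset.range (s + 4))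
      ((Finset.Icc 1 s ×ˢ Finset.range (s + 2)) ∪
    (({s + 1} ×ˢ {0, s + 2}) ∪ (({s + 2} ×ˢ {0, s + 3}) ∪
      (({s + 3} ×ˢ (insert 1 (Finset.Ico (s + 4) n₂))) ∪ (Finset.Ico (s + 4) n₁ ×ˢ {2}))))) := by
    rw [Finset.disjoint_left]
    rintro ⟨x, y⟩ hx hy
    simp only [Finset.mem_union, Finset.mem_product, Finset.mem_singleton,
      Finset.mem_range, Finset.mem_Icc, Finset.mem_Ico, Finset.mem_insert] at hx hy
    omega
  have d2 : Disjoint (Finset.Icc 1 s ×ˢ Finset.range (s + 2))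
    (({s + 1} ×ˢ {0, s + 2}) ∪ (({s + 2} ×ˢ {0, s + 3}) ∪
      (({s + 3} ×ˢ (insert 1 (Finset.Ico (s + 4) n₂))) ∪ (Finset.Ico (s + 4) n₁ ×ˢ {2})))) := by
    rw [Finset.disjoint_left]
    rintro ⟨x, y⟩ hx hy
    simp only [Finset.mem_union, Finset.mem_product, Finset.mem_singleton,
      Finset.mem_range, Finset.mem_Icc, Finset.mem_Ico, Finset.mem_insert] at hx hy
    omega
  have d3 : Disjoint (({s + 1} : Finset ℕ) ×ˢ ({0, s + 2} : Finset ℕ))
    (({s + 2} ×ˢ {0, s + 3}) ∪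
      (({s + 3} ×ˢ (insert 1 (Finset.Ico (s + 4) n₂))) ∪ (Finset.Ico (s + 4) n₁ ×ˢ {2}))) := by
    rw [Finset.disjoint_left]
    rintro ⟨x, y⟩ hx hy
    simp only [Finset.mem_union, Finset.mem_product, Finset.mem_singleton,
      Finset.mem_Ico, Finset.mem_insert] at hx hy
    omega
  have d4 : Disjoint (({s + 2} : Finset ℕ) ×ˢ ({0, s + 3} : Finset ℕ))
      (({s + 3} ×ˢ (insert 1 (Finset.Ico (s + 4) n₂))) ∪ (Finset.Ico (s + 4) n₁ ×ˢ {2})) := by
    rw [Finset.disjoint_left]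
    rintro ⟨x, y⟩ hx hy
    simp only [Finset.mem_union, Finset.mem_product, Finset.mem_singleton,
      Finset.mem_Ico, Finset.mem_insert] at hx hy
    omega
  have d5 : Disjoint (({s + 3} : Finset ℕ) ×ˢ (insert 1 (Finset.Ico (s + 4) n₂)))
      (Finset.Ico (s + 4) n₁ ×ˢ ({2} : Finset ℕ)) := by
    rw [Finset.disjoint_left]
    rintro ⟨x, y⟩ hx hy
    simp only [Finset.mem_product, Finset.mem_singleton,
      Finset.mem_Ico, Finset.mem_insert] at hx hy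
    omega
  have c1 : ({0, s + 2} : Finset ℕ).card = 2 := Finset.card_pair (by omega)
  have c2 : ({0, s + 3} : Finset ℕ).card = 2 := Finset.card_pair (by omega)
  have c3 : (insert 1 (Finset.Ico (s + 4) n₂) : Finset ℕ).card = n₂ - (s + 4) + 1 := by
    rw [Finset.card_insert_of_notMem (by simp), Nat.card_Ico]
  rw [Finset.card_union_of_disjoint d1, Finset.card_union_of_disjoint d2,
    Finset.card_union_of_disjoint d3, Finset.card_union_of_disjoint d4,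
    Finset.card_union_of_disjoint d5]
  simp only [Finset.card_product, Finset.card_singleton, Finset.card_range, Nat.card_Icc,
    Nat.card_Ico, c1, c2, c3]
  obtain ⟨m₁, rfl⟩ : ∃ m, n₁ = s + 5 + m := ⟨n₁ - (s + 5), by omega⟩
  obtain ⟨m₂, rfl⟩ : ∃ m, n₂ = s + 5 + m := ⟨n₂ - (s + 5), by omega⟩
  have k1 : s + 5 + m₁ - (s + 4) = m₁ + 1 := by omega
  have k2 : s + 5 + m₂ - (s + 4) = m₂ + 1 := by omega
  rw [k1, k2]
  simp only [Nat.add_sub_cancel]
  ring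

/-- The construction is saturated. -/
lemma HG_saturated {s n₁ n₂ : ℕ} (hs : 1 ≤ s) (h₁ : s + 5 ≤ n₁) (h₂ : s + 5 ≤ n₂)
    (hfree : (cycleGraph (2 * (s + 3))).Free (HG s n₁ n₂)) :
    IsSaturated (completeBipartiteGraph (Fin n₁) (Fin n₂)) (cycleGraph (2 * (s + 3)))
      (HG s n₁ n₂) := by
  refine ⟨?_, hfree, ?_⟩
  · rintro v w (⟨a, b, rfl, rfl, h⟩ | ⟨a, b, rfl, rfl, h⟩)
    · simp [completeBipartiteGraph]
    · simp [completeBipartiteGraph]
  · intro v w hvw hn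
    rcases v with a | b <;> rcases w with a' | b'
    · simp [completeBipartiteGraph] at hvw
    · exact sat_add hs h₁ h₂ a b' (fun h => hn (HG_adj_lr.2 h))
    · rw [edge_comm]
      exact sat_add hs h₁ h₂ a' b (fun h => hn (HG_adj_lr.2 h).symm)
    · simp [completeBipartiteGraph] at hvw

/-- For every `ℓ ≥ 4` and all `n₁, n₂ ≥ ℓ + 2` there is a `C_{2ℓ}`-saturated spanning subgraph of
`K_{n₁,n₂}` with exactly `n₁ + n₂ + ℓ² - 5ℓ + 7` edges; hence
`sat(K_{n₁,n₂}, C_{2ℓ}) ≤ n₁ + n₂ + ℓ² - 5ℓ + 7 < n₁ + n₂ + ℓ² - 3ℓ + 1`, and the conjectured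
formula fails for all these `ℓ, n₁, n₂`. -/
theorem result : ∀ ℓ n₁ n₂ : ℕ, 4 ≤ ℓ → ℓ + 2 ≤ n₁ → ℓ + 2 ≤ n₂ →
    (∃ H : SimpleGraph (Fin n₁ ⊕ Fin n₂),
      IsSaturated (completeBipartiteGraph (Fin n₁) (Fin n₂)) (cycleGraph (2 * ℓ)) H ∧
      (H.edgeSet.ncard : ℤ) = n₁ + n₂ + ℓ ^ 2 - 5 * ℓ + 7) ∧
    (sat (completeBipartiteGraph (Fin n₁) (Fin n₂)) (cycleGraph (2 * ℓ)) : ℤ) ≤
      n₁ + n₂ + ℓ ^ 2 - 5 * ℓ + 7 ∧
    (sat (completeBipartiteGraph (Fin n₁) (Fin n₂)) (cycleGraph (2 * ℓ)) : ℤ) <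
      n₁ + n₂ + ℓ ^ 2 - 3 * ℓ + 1 := by
  intro ℓ n₁ n₂ hℓ h₁ h₂
  obtain ⟨s, rfl⟩ : ∃ s, ℓ = s + 3 := ⟨ℓ - 3, by omega⟩
  have hs : 1 ≤ s := by omega
  have hsat := HG_saturated hs (show s + 5 ≤ n₁ by omega) (show s + 5 ≤ n₂ by omega) (HG_free hs)
  have hcard : (HG s n₁ n₂).edgeSet.ncard = n₁ + n₂ + s ^ 2 + s + 1 :=
    HG_ncard (by omega) (by omega)
  have hval : ((HG s n₁ n₂).edgeSet.ncard : ℤ) =
      n₁ + n₂ + ((s + 3 : ℕ) : ℤ) ^ 2 - 5 * ((s + 3 : ℕ) : ℤ) + 7 := by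
    rw [hcard]; push_cast; ring
  have hle : (sat (completeBipartiteGraph (Fin n₁) (Fin n₂)) (cycleGraph (2 * (s + 3))) : ℤ) ≤
      n₁ + n₂ + ((s + 3 : ℕ) : ℤ) ^ 2 - 5 * ((s + 3 : ℕ) : ℤ) + 7 := by
    rw [← hval]
    have h : sat (completeBipartiteGraph (Fin n₁) (Fin n₂)) (cycleGraph (2 * (s + 3))) ≤
        (HG s n₁ n₂).edgeSet.ncard := Nat.sInf_le ⟨HG s n₁ n₂, hsat, rfl⟩
    exact_mod_cast h
  refine ⟨⟨HG s n₁ n₂, hsat, hval⟩, hle, ?_⟩
  have : (4 : ℤ) ≤ ((s + 3 : ℕ) : ℤ) := by exact_mod_cast hℓ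
  linarith

end Pool.Agent.Results.MP_7875f2_co.FormulaFails
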